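import Pool.Agent.Lib.helper24.GKKEx

set_option autoImplicit false

namespace Pool.Agent.Results.MP_25f4f2_al.Unstable

open Pool.Agent.Lib.helper24.GKK

/-- A strict GKK tau-matrix of order 5 with an eigenvalue of nonpositive real part. -/
theorem result : ∃ A : Matrix (Fin 5) (Fin 5) ℂ,
    IsP A ∧ StrictWeakSignSym A ∧ IsTau A ∧ ∃ z ∈ spectrum ℂ A, z.re ≤ 0 := by
  refine ⟨toC exS, exS_isP, exS_strict, exS_isTau, ?_⟩
  by_contra h
  refine exS_not fun z hz => ?_
  by_contra h'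
  exact h ⟨z, hz, not_lt.mp h'⟩

end Pool.Agent.Results.MP_25f4f2_al.Unstable
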